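import Pool.Agent.P.MP_8b7eba_nt.KW.Main

/-!
Kolyvagin's conjecture at the prime two for quadratic twists of `X₀(15)`: the system of derived
Heegner points does not vanish, and its order of vanishing is the larger of the coranks of the
`2^∞`-Selmer groups of the twists by `d` and by `-l d`, minus one.
-/

namespace Pool.Agent.Results.MP_8b7eba_nt.KolyvaginTwoAll

open Pool.Agent.P.MP_8b7eba_nt

theorem result (l : ℕ) (d ρ : ℤ) (hl : l.Prime) (h16 : l % 16 = 7) (hd : Squarefree d)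
    (h5 : ∃ p : ℕ, p.Prime ∧ 5 < p ∧ (p : ℤ) ∣ d)
    (hs : ∀ p : ℕ, p.Prime → p ≠ 2 → (p : ℤ) ∣ 15 * d → jacobiSym (-l) p = 1)
    (hρ : 60 ∣ ρ ^ 2 + l) :
    ∃ r : ℕ, IsLeast {r | KW.NV l ρ d r} r ∧
      IsGreatest {s | KW.Cork ⟨0, 0, 0, -12987 * d ^ 2, -263466 * d ^ 3⟩ s ∨
        KW.Cork ⟨0, 0, 0, -12987 * (-l * d) ^ 2, -263466 * (-l * d) ^ 3⟩ s} (r + 1) :=
  R2.G.KV.main' l d ρ ⟨hl, h16, hd, h5, hs⟩ hρ

end Pool.Agent.Results.MP_8b7eba_nt.KolyvaginTwoAll
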