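import Pool.Agent.P.MP_8b7eba_nt.CG.Main

/-!
The weak conjecture of Birch and Swinnerton-Dyer for half of the curves `y² = x³ - D x`.
-/

namespace Pool.Agent.Results.MP_8b7eba_nt.QuarticHalf

open Pool.Agent.P.MP_8b7eba_nt Filter

/-- `f` is entire and equals, on `Re s > 3/2`, the Euler product of `y² = x³ + A x + B` over the
primes not dividing `2 (4 A³ + 27 B²)`, exactly as in the frozen statement of the problem. -/
def IsLFunction (A B : ℤ) (f : ℂ → ℂ) : Prop :=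
  Differentiable ℂ f ∧ ∀ s : ℂ, (3 : ℝ) / 2 < s.re →
    HasProd
      (fun p : {p : ℕ // p.Prime ∧ ¬ ((p : ℤ) ∣ 2 * (4 * A ^ 3 + 27 * B ^ 2))} =>
        ((1 : ℂ)
          - ((((p.1 : ℤ) - (Nat.card {q : ZMod p.1 × ZMod p.1 //
                q.2 ^ 2 = q.1 ^ 3 + (A : ZMod p.1) * q.1 + (B : ZMod p.1)} : ℤ)) : ℤ) : ℂ)
              * ((p.1 : ℂ) ^ (-s))
          + (p.1 : ℂ) ^ (1 - 2 * s))⁻¹)
      (f s)

/-- The curve `y² = x³ + A x + B` is nonsingular, its L-function exists and does not vanish at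
`s = 1`, and the curve has finitely many rational points. -/
def RankZero (A B : ℤ) : Prop :=
  4 * A ^ 3 + 27 * B ^ 2 ≠ 0 ∧ (∃ f : ℂ → ℂ, IsLFunction A B f) ∧
    (∀ f : ℂ → ℂ, IsLFunction A B f → f 1 ≠ 0) ∧
    {q : ℚ × ℚ | q.2 ^ 2 = q.1 ^ 3 + (A : ℚ) * q.1 + (B : ℚ)}.Finite

theorem result (ε : ℝ) (hε : 0 < ε) : ∀ᶠ X : ℕ in atTop,
    (1 / 2 - ε) * (2 * X) ≤ ({D : ℤ | |D| ≤ X ∧ RankZero (-D) 0}.ncard : ℝ) :=
  QT.CG.main ε hε

end Pool.Agent.Results.MP_8b7eba_nt.QuarticHalf
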