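import Pool.Agent.P.MP_8b7eba_nt.R3.Main

/-!
The weak conjecture of Birch and Swinnerton-Dyer for almost all quadratic twists of `X_0(15)`.
The curve `y² = x³ - 12987 d² x - 263466 d³` is isomorphic to `y² = x (x + 9 d) (x - 16 d)`
through `X = 9 x - 21 d`, `Y = 27 y`.
-/

namespace Pool.Agent.Results.MP_8b7eba_nt.X015AllTwists

open Pool.Agent.P.MP_8b7eba_nt Filter Topology

/-- `f` is entire and equals, on `Re s > 3/2`, the Euler product of `y² = x³ + A x + B` over the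
primes not dividing `2 (4 A³ + 27 B²)`, exactly as in the frozen statement of the problem. -/
def IsLFunction (A B : ℤ) (f : ℂ → ℂ) : Prop :=
  Differentiable ℂ f ∧ ∀ s : ℂ, (3 : ℝ) / 2 < s.re →
    HasProd
      (fun p : {p : ℕ // p.Prime ∧ ¬ ((p : ℤ) ∣ 2 * (4 * A ^ 3 + 27 * B ^ 2))} =>
        ((1 : ℂ)
          - ((((p.1 : ℤ) - (Nat.card {q : ZMod p.1 × ZMod p.1 //
                q.2 ^ 2 = q.1 ^ 3 + (A : ZMod p.1) * q.1 + (B : ZMod p.1)} : ℤ)) : ℤ) : ℂ)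
              * ((p.1 : ℂ) ^ (-s))
          + (p.1 : ℂ) ^ (1 - 2 * s))⁻¹)
      (f s)

/-- The assertion of the problem for `y² = x³ + A x + B`, both sides being equivalent to `P`. -/
def WeakBSD (A B : ℤ) (P : Prop) : Prop :=
  4 * A ^ 3 + 27 * B ^ 2 ≠ 0 ∧ (∃ f : ℂ → ℂ, IsLFunction A B f) ∧
    ∀ f : ℂ → ℂ, IsLFunction A B f →
      (f 1 = 0 ↔ {q : ℚ × ℚ | q.2 ^ 2 = q.1 ^ 3 + (A : ℚ) * q.1 + (B : ℚ)}.Infinite) ∧ (f 1 = 0 ↔ P)

/-- The root number of the twist by the squarefree integer `d`. -/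
def rootNumber (d : ℤ) : ℤ :=
  d.sign * (if 3 ∣ d then 1 else jacobiSym d 3) * (if 5 ∣ d then -1 else jacobiSym d 5)

/-- The squarefree integers of absolute value at most `X`. -/
def Fam (X : ℕ) : Set ℤ := {d | |d| ≤ X ∧ Squarefree d}

theorem result : Tendsto (fun X : ℕ =>
    ({d ∈ Fam X | WeakBSD (-12987 * d ^ 2) (-263466 * d ^ 3) (rootNumber d = -1)}.ncard /
      (Fam X).ncard : ℝ)) atTop (𝓝 1) := by
  refine R3.final _ fun d h1 _ h2 => ⟨?_, h2⟩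
  rw [show 4 * (-12987 * d ^ 2) ^ 3 + 27 * (-263466 * d ^ 3) ^ 2 = -6887475360000 * d ^ 6 by ring]
  exact mul_ne_zero (by norm_num) (pow_ne_zero _ h1.ne_zero)

end Pool.Agent.Results.MP_8b7eba_nt.X015AllTwists
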