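import Pool.Agent.P.MP_8b7eba_nt.TC.Main

/-!
A 2-converse theorem in ranks zero and one for all quadratic twists of `X_0(15)`.  The curve
`y² = x³ - 12987 d² x - 263466 d³` is isomorphic to `y² = x (x + 9 d) (x - 16 d)` through
`X = 9 x - 21 d`, `Y = 27 y`.
-/

namespace Pool.Agent.Results.MP_8b7eba_nt.X015TwoConverseAll

open Pool.Agent.P.MP_9c97e9_nt Pool.Agent.P.MP_8b7eba_nt

/-- `f` is entire and equals, on `Re s > 3/2`, the Euler product of `y² = x³ + A x + B` over the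
primes not dividing `2 (4 A³ + 27 B²)`, exactly as in the frozen statement of the problem. -/
def IsLFunction (A B : ℤ) (f : ℂ → ℂ) : Prop :=
  Differentiable ℂ f ∧ ∀ s : ℂ, (3 : ℝ) / 2 < s.re →
    HasProd
      (fun p : {p : ℕ // p.Prime ∧ ¬ ((p : ℤ) ∣ 2 * (4 * A ^ 3 + 27 * B ^ 2))} =>
        ((1 : ℂ)
          - ((((p.1 : ℤ) - (Nat.card {q : ZMod p.1 × ZMod p.1 //
                q.2 ^ 2 = q.1 ^ 3 + (A : ZMod p.1) * q.1 + (B : ZMod p.1)} : ℤ)) : ℤ) : ℂ)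
              * ((p.1 : ℂ) ^ (-s))
          + (p.1 : ℂ) ^ (1 - 2 * s))⁻¹)
      (f s)

/-- The exceptional twists: `d` is `82` or `178` modulo `240` and all its odd prime factors are
`1` or `7` modulo `8`. -/
def Exc (d : ℤ) : Prop :=
  (d % 240 = 82 ∨ d % 240 = 178) ∧
    ∀ p : ℕ, p.Prime → p ≠ 2 → (p : ℤ) ∣ d → p % 8 = 1 ∨ p % 8 = 7

theorem result (d : ℤ) (hd : Squarefree d) (A B : ℤ)
    (hA : A = -12987 * d ^ 2) (hB : B = -263466 * d ^ 3) :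
    4 * A ^ 3 + 27 * B ^ 2 ≠ 0 ∧
    (∃ f : ℂ → ℂ, IsLFunction A B f) ∧
    ∀ f : ℂ → ℂ, IsLFunction A B f →
      (f 1 = 0 ↔ {q : ℚ × ℚ | q.2 ^ 2 = q.1 ^ 3 + (A : ℚ) * q.1 + (B : ℚ)}.Infinite ∨
        (∀ k : ℕ, ∃ φ : ZMod (2 ^ k) × ZMod (2 ^ k) →+ Sha ⟨0, 0, 0, A, B⟩,
          Function.Injective φ) ∨
        Exc d ∧ Infinite (AddCommGroup.primaryComponent (Sha ⟨0, 0, 0, A, B⟩) 2)) := by
  subst hA hB
  obtain ⟨-, g, -, hg, -⟩ := R3.twa_L hd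
  refine ⟨?_, ⟨g, hg⟩, fun f hf => SM.Tc.conv_iff hd hf⟩
  rw [show 4 * (-12987 * d ^ 2) ^ 3 + 27 * (-263466 * d ^ 3) ^ 2 = -6887475360000 * d ^ 6 by ring]
  exact mul_ne_zero (by norm_num) (pow_ne_zero _ hd.ne_zero)

end Pool.Agent.Results.MP_8b7eba_nt.X015TwoConverseAll
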